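import Mathlib

/-!
# Extended M-bases and the spaces `X × ℓ¹(Λ)`

If the bounded family `g γ` of functionals on `X` is total and `(g γ x)` tends to zero (along the
cofinite filter) for every `x`, then `X × ℓ¹((Γ × ℕ) ⊕ (X × ℕ))` has an extended M-basis.
-/

set_option autoImplicit false

open Filter Topology
open scoped ENNReal

namespace Pool.Agent.R268.MBasis

universe u v w

/-- The family `(x i, f i)`, `i ∈ I`, is an extended M-basis of `E`: it is biorthogonal, the closed
linear span of the `x i` is `E`, and the `f i` are total on `E`. -/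
structure IsExtendedMBasis (𝕜 : Type v) [RCLike 𝕜] {E : Type u} [NormedAddCommGroup E]
    [NormedSpace 𝕜 E] {I : Type w} (x : I → E) (f : I → StrongDual 𝕜 E) : Prop where
  biorth_self : ∀ i, f i (x i) = 1
  biorth_ne : ∀ i j, i ≠ j → f j (x i) = 0
  complete : closure (Submodule.span 𝕜 (Set.range x) : Set E) = Set.univ
  total : ∀ v : E, (∀ i, f i v = 0) → v = 0

section construction

variable {𝕜 : Type v} [RCLike 𝕜] {X : Type u} [NormedAddCommGroup X] [NormedSpace 𝕜 X]
  {Γ : Type u}

/-- The index set of the M-basis. -/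
abbrev Idx (X Γ : Type u) : Type u := (Γ × ℕ) ⊕ (X × ℕ)

/-- The space `ℓ¹` over the index set. -/
abbrev L1 (𝕜 : Type v) [RCLike 𝕜] (Λ : Type u) := lp (fun _ : Λ => 𝕜) 1

/-- The functional on `ℓ¹(Λ)` given by a bounded function. -/
noncomputable def func {Λ : Type u} (k : Λ → 𝕜) (B : ℝ) (hk : ∀ i, ‖k i‖ ≤ B) :
    StrongDual 𝕜 (L1 𝕜 Λ) :=
  LinearMap.mkContinuous
    { toFun := fun y => ∑' i, k i * y i
      map_add' := by
        intro y z
        have h : ∀ y : L1 𝕜 Λ, Summable (fun i => k i * y i) := by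
          intro y
          have hy : Summable (fun i => ‖y i‖) := by
            have := (lp.memℓp y).summable (by norm_num)
            simpa using this
          refine Summable.of_norm_bounded (hy.mul_left B) (fun i => ?_)
          rw [norm_mul]
          exact mul_le_mul_of_nonneg_right (hk i) (norm_nonneg _)
        rw [← (h y).tsum_add (h z)]
        congr 1
        ext i
        rw [lp.coeFn_add, Pi.add_apply, mul_add]
      map_smul' := by
        intro c y
        rw [RingHom.id_apply, smul_eq_mul, ← tsum_mul_left]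
        congr 1
        ext i
        rw [lp.coeFn_smul, Pi.smul_apply, smul_eq_mul]
        ring } B (by
    intro y
    have hy : Summable (fun i => ‖y i‖) := by
      have := (lp.memℓp y).summable (by norm_num)
      simpa using this
    have hn : ‖y‖ = ∑' i, ‖y i‖ := by
      have := lp.norm_eq_tsum_rpow (p := 1) (by norm_num) y
      simpa using this
    have h1 : ‖∑' i, k i * y i‖ ≤ ∑' i, B * ‖y i‖ := by
      refine tsum_of_norm_bounded (hy.mul_left B).hasSum (fun i => ?_)
      rw [norm_mul]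
      exact mul_le_mul_of_nonneg_right (hk i) (norm_nonneg _)
    rw [hn, ← tsum_mul_left]
    exact h1)

theorem func_apply {Λ : Type u} (k : Λ → 𝕜) (B : ℝ) (hk : ∀ i, ‖k i‖ ≤ B) (y : L1 𝕜 Λ) :
    func k B hk y = ∑' i, k i * y i := rfl

open Classical in
/-- unit vectors -/
noncomputable def e {Λ : Type u} (i : Λ) : L1 𝕜 Λ := lp.single 1 i (1 : 𝕜)

open Classical in
theorem e_apply {Λ : Type u} (i j : Λ) : (e i : L1 𝕜 Λ) j = if j = i then 1 else 0 := by
  rw [e, lp.single_apply]
  by_cases h : j = i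
  · subst h; simp
  · simp [h]

theorem func_e {Λ : Type u} (k : Λ → 𝕜) (B : ℝ) (hk : ∀ i, ‖k i‖ ≤ B) (i : Λ) :
    func k B hk (e i) = k i := by
  classical
  rw [func_apply, tsum_eq_single i]
  · rw [e_apply, if_pos rfl, mul_one]
  · intro j hj
    rw [e_apply, if_neg hj, mul_zero]

theorem norm_e {Λ : Type u} (i : Λ) : ‖(e i : L1 𝕜 Λ)‖ = 1 := by
  classical
  rw [e, lp.norm_single (by norm_num)]
  simp

/-- Finite linear combinations of the unit vectors are dense. -/
theorem dense_e {Λ : Type u} :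
    closure (Submodule.span 𝕜 (Set.range (e : Λ → L1 𝕜 Λ)) : Set (L1 𝕜 Λ)) = Set.univ := by
  classical
  rw [Set.eq_univ_iff_forall]
  intro y
  have h := lp.hasSum_single (E := fun _ : Λ => 𝕜) (p := 1) (by norm_num) y
  refine mem_closure_of_tendsto h (Filter.Eventually.of_forall (fun s => ?_))
  refine Submodule.sum_mem _ (fun i _ => ?_)
  have h1 : lp.single 1 i (y i) = (y i) • (e i : L1 𝕜 Λ) := by
    rw [e, ← lp.single_smul, smul_eq_mul, mul_one]
  rw [h1]
  exact Submodule.smul_mem _ _ (Submodule.subset_span ⟨i, rfl⟩)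

variable (g : Γ → StrongDual 𝕜 X)

/-- the scaling constants -/
noncomputable def Cc (p : X × ℕ) : ℝ := (p.2 + 1) / (1 + ‖p.1‖)

theorem Cc_pos (p : X × ℕ) : 0 < Cc p := by
  unfold Cc
  positivity

/-- the finite sets `F (u, m)` of pairs `(γ, n)` with `n < m` and `C |g γ u| > 1` -/
def FF (p : X × ℕ) : Set (Γ × ℕ) := {q | q.2 < p.2 ∧ 1 < Cc p * ‖g q.1 p.1‖}

theorem FF_finite (hg : ∀ x, Tendsto (fun γ => g γ x) cofinite (𝓝 0)) (p : X × ℕ) :
    (FF g p).Finite := by
  have h1 : Tendsto (fun γ => Cc p * ‖g γ p.1‖) cofinite (𝓝 0) := by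
    have := ((hg p.1).norm).const_mul (Cc p)
    simpa using this
  have h2 : ∀ᶠ γ in cofinite, Cc p * ‖g γ p.1‖ < 1 := h1.eventually (gt_mem_nhds one_pos)
  rw [Filter.eventually_cofinite] at h2
  refine (h2.prod (Set.finite_Iio p.2)).subset ?_
  rintro ⟨γ, n⟩ ⟨ha, hb⟩
  exact ⟨fun h => lt_asymm h hb, ha⟩

/-- the coefficients of the functionals -/
noncomputable def kap (q : Γ × ℕ) : Idx X Γ → 𝕜 := by
  classical
  exact fun i => match i with
    | .inl q' => if q' = q then 1 else 0
    | .inr p => if q ∈ FF g p then 0 else - ((Cc p : ℝ) : 𝕜) * g q.1 p.1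

theorem kap_bound (M : ℝ) (hM : ∀ γ, ‖g γ‖ ≤ M) (q : Γ × ℕ) (i : Idx X Γ) :
    ‖kap g q i‖ ≤ 1 + (q.2 + 1) * |M| := by
  classical
  have hpos : 0 ≤ ((q.2 : ℝ) + 1) * |M| := by positivity
  rcases i with q' | p
  · simp only [kap]
    split_ifs
    · rw [norm_one]; linarith
    · rw [norm_zero]; linarith
  · simp only [kap]
    split_ifs with h
    · rw [norm_zero]; linarith
    · rw [norm_mul, norm_neg, RCLike.norm_ofReal, abs_of_pos (Cc_pos p)]
      by_cases h1 : 1 < Cc p * ‖g q.1 p.1‖
      · have h2 : p.2 ≤ q.2 := by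
          by_contra hcon
          exact h ⟨not_le.1 hcon, h1⟩
        have h3 : ‖g q.1 p.1‖ ≤ |M| * ‖p.1‖ :=
          ((g q.1).le_opNorm _).trans (mul_le_mul_of_nonneg_right
            ((hM _).trans (le_abs_self _)) (norm_nonneg _))
        have h4 : Cc p * ‖g q.1 p.1‖ ≤ Cc p * (|M| * ‖p.1‖) :=
          mul_le_mul_of_nonneg_left h3 (Cc_pos p).le
        have h5 : Cc p * (|M| * ‖p.1‖) ≤ (q.2 + 1) * |M| := by
          have h6 : Cc p * ‖p.1‖ ≤ q.2 + 1 := by
            have h7 : Cc p * ‖p.1‖ ≤ p.2 + 1 := by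
              unfold Cc
              rw [div_mul_eq_mul_div, div_le_iff₀ (by positivity)]
              have := norm_nonneg p.1
              have h9 : (0 : ℝ) ≤ p.2 := Nat.cast_nonneg _
              nlinarith
            have h8 : (p.2 : ℝ) ≤ q.2 := by exact_mod_cast h2
            linarith
          calc Cc p * (|M| * ‖p.1‖) = (Cc p * ‖p.1‖) * |M| := by ring
            _ ≤ _ := mul_le_mul_of_nonneg_right h6 (abs_nonneg _)
        linarith
      · linarith

/-- the functionals of the M-basis -/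
noncomputable def hh (M : ℝ) (hM : ∀ γ, ‖g γ‖ ≤ M) :
    Idx X Γ → StrongDual 𝕜 (X × L1 𝕜 (Idx X Γ))
  | .inl q => (g q.1).comp (ContinuousLinearMap.fst 𝕜 X _) +
      (func (kap g q) _ (kap_bound g M hM q)).comp (ContinuousLinearMap.snd 𝕜 X _)
  | .inr p => by
      classical
      exact (func (fun i => if i = Sum.inr p then (1 : 𝕜) else 0) 1 (by
        intro i
        split_ifs <;> simp)).comp (ContinuousLinearMap.snd 𝕜 X _)

theorem hh_inl (M : ℝ) (hM : ∀ γ, ‖g γ‖ ≤ M) (q : Γ × ℕ) (v : X × L1 𝕜 (Idx X Γ)) :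
    hh g M hM (.inl q) v = g q.1 v.1 + ∑' i, kap g q i * v.2 i := rfl

theorem hh_inr (M : ℝ) (hM : ∀ γ, ‖g γ‖ ≤ M) (p : X × ℕ) (v : X × L1 𝕜 (Idx X Γ)) :
    hh g M hM (.inr p) v = v.2 (.inr p) := by
  classical
  have h1 : hh g M hM (.inr p) v = ∑' i, (if i = Sum.inr p then (1 : 𝕜) else 0) * v.2 i := by
    simp only [hh, ContinuousLinearMap.comp_apply, func_apply]
    rfl
  rw [h1, tsum_eq_single (Sum.inr p)]
  · rw [if_pos rfl, one_mul]
  · intro i hi
    rw [if_neg hi, zero_mul]

/-- the vectors of the M-basis -/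
noncomputable def zz (hg : ∀ x, Tendsto (fun γ => g γ x) cofinite (𝓝 0)) :
    Idx X Γ → X × L1 𝕜 (Idx X Γ)
  | .inl q => (0, e (.inl q))
  | .inr p => (((Cc p : ℝ) : 𝕜) • p.1,
      e (.inr p) - ∑ q ∈ (FF_finite g hg p).toFinset, (((Cc p : ℝ) : 𝕜) * g q.1 p.1) • e (.inl q))

theorem isExtendedMBasis (M : ℝ) (hM : ∀ γ, ‖g γ‖ ≤ M)
    (hg : ∀ x, Tendsto (fun γ => g γ x) cofinite (𝓝 0))
    (htot : ∀ x, (∀ γ, g γ x = 0) → x = 0) :
    IsExtendedMBasis 𝕜 (zz g hg) (hh g M hM) := by
  classical
  have hfun : ∀ (q : Γ × ℕ) (x : X) (i : Idx X Γ),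
      hh g M hM (.inl q) (x, e i) = g q.1 x + kap g q i := by
    intro q x i
    rw [hh_inl]
    congr 1
    exact func_e (kap g q) _ (kap_bound g M hM q) i
  have hz : ∀ i, hh g M hM i (zz g hg i) = 1 := by
    rintro (q | p)
    · rw [zz, hfun, map_zero, zero_add, kap, if_pos rfl]
    · rw [hh_inr, zz]
      simp only [lp.coeFn_sub, Pi.sub_apply, lp.coeFn_sum, Finset.sum_apply, lp.coeFn_smul,
        Pi.smul_apply, e_apply]
      simp
  have hzn : ∀ i j, i ≠ j → hh g M hM j (zz g hg i) = 0 := by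
    rintro (q | p) (q' | p') hne
    · rw [zz, hfun, map_zero, zero_add, kap, if_neg]
      rintro rfl
      exact hne rfl
    · rw [hh_inr, zz]
      simp [e_apply]
    · -- the main computation
      have h1 : hh g M hM (.inl q') (zz g hg (.inr p)) = ((Cc p : ℝ) : 𝕜) * g q'.1 p.1
          + func (kap g q') _ (kap_bound g M hM q') (e (.inr p) -
            ∑ q ∈ (FF_finite g hg p).toFinset,
              (((Cc p : ℝ) : 𝕜) * g q.1 p.1) • e (.inl q)) := by
        change g q'.1 (((Cc p : ℝ) : 𝕜) • p.1) + _ = _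
        rw [map_smul, smul_eq_mul]
        rfl
      rw [h1, map_sub, map_sum, func_e]
      simp only [map_smul, func_e, smul_eq_mul]
      have h2 : ∀ q : Γ × ℕ, kap g q' (Sum.inl q : Idx X Γ) = if q = q' then 1 else 0 :=
        fun q => rfl
      simp only [h2, mul_ite, mul_one, mul_zero]
      rw [Finset.sum_ite_eq' (FF_finite g hg p).toFinset q']
      simp only [kap, Set.Finite.mem_toFinset]
      split_ifs with h
      · ring
      · ring
    · rw [hh_inr, zz]
      simp only [lp.coeFn_sub, Pi.sub_apply, lp.coeFn_sum, Finset.sum_apply, lp.coeFn_smul,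
        Pi.smul_apply, e_apply]
      have : p' ≠ p := fun h => hne (by rw [h])
      simp [this]
  refine ⟨hz, hzn, ?_, ?_⟩
  · -- completeness
    set S := (Submodule.span 𝕜 (Set.range (zz g hg))).topologicalClosure with hS
    have hScl : (S : Set (X × L1 𝕜 (Idx X Γ))) =
        closure (Submodule.span 𝕜 (Set.range (zz g hg)) : Set _) := by
      rw [hS, Submodule.topologicalClosure_coe]
    have hmem : ∀ i, zz g hg i ∈ S := fun i =>
      Submodule.le_topologicalClosure _ (Submodule.subset_span ⟨i, rfl⟩)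
    have hS1 : ∀ u : X, (u, (0 : L1 𝕜 (Idx X Γ))) ∈ S := by
      intro u
      have hclosed : IsClosed (S : Set (X × L1 𝕜 (Idx X Γ))) :=
        Submodule.isClosed_topologicalClosure _
      have hw : ∀ m : ℕ, (u, ((((Cc (u, m))⁻¹ : ℝ) : 𝕜)) • (e (.inr (u, m)) :
          L1 𝕜 (Idx X Γ))) ∈ S := by
        intro m
        have hc : ((Cc (u, m) : ℝ) : 𝕜) ≠ 0 := by
          rw [Ne, RCLike.ofReal_eq_zero]
          exact (Cc_pos (u, m)).ne'
        have h2 : (u, ((((Cc (u, m))⁻¹ : ℝ) : 𝕜)) • (e (.inr (u, m)) : L1 𝕜 (Idx X Γ))) =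
            ((((Cc (u, m))⁻¹ : ℝ) : 𝕜)) • zz g hg (.inr (u, m)) +
            ∑ q ∈ (FF_finite g hg (u, m)).toFinset, (g q.1 u) • zz g hg (.inl q) := by
          rw [RCLike.ofReal_inv]
          refine Prod.ext ?_ ?_
          · simp only [zz, Prod.fst_add, Prod.smul_fst, Prod.fst_sum, smul_zero,
              Finset.sum_const_zero, add_zero]
            rw [smul_smul, inv_mul_cancel₀ hc, one_smul]
          · simp only [zz, Prod.snd_add, Prod.smul_snd, Prod.snd_sum]
            rw [smul_sub, Finset.smul_sum, sub_add, sub_eq_self.2]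
            · rw [sub_eq_zero]
              refine Finset.sum_congr rfl (fun q _ => ?_)
              rw [smul_smul, ← mul_assoc, inv_mul_cancel₀ hc, one_mul]
        rw [h2]
        exact S.add_mem (S.smul_mem _ (hmem _)) (S.sum_mem (fun q _ => S.smul_mem _ (hmem _)))
      refine hclosed.mem_of_tendsto (b := (atTop : Filter ℕ)) ?_
        (Filter.Eventually.of_forall hw)
      refine Tendsto.prodMk_nhds tendsto_const_nhds ?_
      rw [tendsto_zero_iff_norm_tendsto_zero]
      have h3 : ∀ m : ℕ, ‖((((Cc (u, m))⁻¹ : ℝ) : 𝕜)) • (e (.inr (u, m)) : L1 𝕜 (Idx X Γ))‖ =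
          (1 + ‖u‖) * (1 / ((m : ℝ) + 1)) := by
        intro m
        rw [norm_smul, norm_e, mul_one, RCLike.norm_ofReal,
          abs_of_pos (inv_pos.2 (Cc_pos (u, m)))]
        simp only [Cc]
        rw [inv_div]
        ring
      simp_rw [h3]
      have := (tendsto_one_div_add_atTop_nhds_zero_nat (𝕜 := ℝ)).const_mul (1 + ‖u‖)
      simpa using this
    have hS2 : ∀ i : Idx X Γ, ((0 : X), (e i : L1 𝕜 (Idx X Γ))) ∈ S := by
      rintro (q | p)
      · exact hmem (.inl q)
      · have h2 : ((0 : X), (e (.inr p) : L1 𝕜 (Idx X Γ))) = zz g hg (.inr p) -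
            ((((Cc p : ℝ) : 𝕜) • p.1, (0 : L1 𝕜 (Idx X Γ)))) +
            ∑ q ∈ (FF_finite g hg p).toFinset,
              (((Cc p : ℝ) : 𝕜) * g q.1 p.1) • zz g hg (.inl q) := by
          refine Prod.ext ?_ ?_
          · simp [zz, Prod.fst_sum]
          · simp only [zz, Prod.snd_add, Prod.snd_sub, Prod.smul_snd, Prod.snd_sum]
            abel
        rw [h2]
        exact S.add_mem (S.sub_mem (hmem _) (hS1 _))
          (S.sum_mem (fun q _ => S.smul_mem _ (hmem _)))
    rw [← hScl, Set.eq_univ_iff_forall]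
    rintro ⟨x, y⟩
    have hy : ((0 : X), y) ∈ S := by
      have h5 : y ∈ closure (Submodule.span 𝕜 (Set.range (e : Idx X Γ → L1 𝕜 (Idx X Γ))) :
          Set (L1 𝕜 (Idx X Γ))) := by
        rw [dense_e]; exact Set.mem_univ _
      have h6 : Submodule.span 𝕜 (Set.range (e : Idx X Γ → L1 𝕜 (Idx X Γ))) ≤
          S.comap (LinearMap.inr 𝕜 X (L1 𝕜 (Idx X Γ))) := by
        rw [Submodule.span_le]
        rintro _ ⟨i, rfl⟩
        exact hS2 i
      have h7 : IsClosed {y : L1 𝕜 (Idx X Γ) | ((0 : X), y) ∈ S} :=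
        (Submodule.isClosed_topologicalClosure _).preimage
          (Continuous.prodMk continuous_const continuous_id)
      exact closure_minimal (fun y hy => h6 hy) h7 h5
    have hxy : ((x, y) : X × L1 𝕜 (Idx X Γ)) = (x, 0) + (0, y) := by simp
    rw [SetLike.mem_coe, hxy]
    exact S.add_mem (hS1 x) hy
  · -- totality
    rintro ⟨x, y⟩ hv
    have hy : ∀ p : X × ℕ, y (.inr p) = 0 := by
      intro p
      have := hv (.inr p)
      rwa [hh_inr] at this
    have hy2 : ∀ q : Γ × ℕ, g q.1 x + y (.inl q) = 0 := by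
      intro q
      have h1 := hv (.inl q)
      rw [hh_inl] at h1
      rw [tsum_eq_single (Sum.inl q)] at h1
      · rw [kap, if_pos rfl, one_mul] at h1
        exact h1
      · rintro (q' | p) hne
        · rw [kap, if_neg, zero_mul]
          rintro rfl
          exact hne rfl
        · change _ * y (.inr p) = 0
          rw [hy p, mul_zero]
    have hx : ∀ γ, g γ x = 0 := by
      intro γ
      have hs : Summable (fun i => ‖y i‖) := by
        have := (lp.memℓp y).summable (by norm_num)
        simpa using this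
      have h1 : Summable (fun n : ℕ => ‖y (.inl (γ, n))‖) :=
        hs.comp_injective (i := fun n : ℕ => (Sum.inl (γ, n) : Idx X Γ)) (by
          intro a b hab
          simpa using hab)
      have h2 : ∀ n : ℕ, ‖y (.inl (γ, n))‖ = ‖g γ x‖ := by
        intro n
        have := hy2 (γ, n)
        rw [eq_neg_of_add_eq_zero_right this, norm_neg]
      simp_rw [h2] at h1
      have h3 := h1.tendsto_atTop_zero
      have h4 : Tendsto (fun _ : ℕ => ‖g γ x‖) atTop (𝓝 ‖g γ x‖) := tendsto_const_nhds
      exact norm_eq_zero.1 (tendsto_nhds_unique h4 h3)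
    have hx0 := htot x hx
    subst hx0
    refine Prod.ext rfl ?_
    ext i
    rcases i with q | p
    · have := hy2 q
      rw [map_zero, zero_add] at this
      exact this
    · exact hy p

end construction

end Pool.Agent.R268.MBasis
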