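import Mathlib

/-!
# Sobczyk-Veech correction of bounded sequences of functionals, and some tools
-/

set_option autoImplicit false

open Filter Topology

namespace Pool.Agent.R268.Sobczyk

universe u v

/-- Construction of a sequence step by step. -/
theorem exists_seq_of_step {α : Type u} [Nonempty α] (P : ℕ → (ℕ → α) → Prop)
    (hcongr : ∀ n s t, (∀ k, k < n → s k = t k) → P n s → P n t)
    (h0 : ∀ s, P 0 s)
    (hstep : ∀ n s, P n s → ∃ a, P (n + 1) (Function.update s n a)) :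
    ∃ s, ∀ n, P n s := by
  classical
  choose! A hA using hstep
  let s0 : ℕ → α := fun _ => Classical.arbitrary α
  let S : ℕ → (ℕ → α) := fun n => Nat.rec s0 (fun n s => Function.update s n (A n s)) n
  have hS : ∀ n, S (n + 1) = Function.update (S n) n (A n (S n)) := fun n => rfl
  have hP : ∀ n, P n (S n) := by
    intro n
    induction n with
    | zero => exact h0 _
    | succ n ih => rw [hS]; exact hA n _ ih
  have hst : ∀ k n, k < n → S n k = S (k + 1) k := by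
    intro k n hkn
    induction n, hkn using Nat.le_induction with
    | base => rfl
    | succ n hn ih =>
      rw [hS, Function.update_of_ne (by omega), ih]
  exact ⟨fun k => S (k + 1) k, fun n => hcongr n _ _ (fun k hk => hst k n hk) (hP n)⟩

variable {𝕜 : Type v} [RCLike 𝕜] {E : Type u} [NormedAddCommGroup E] [NormedSpace 𝕜 E]

/-- A point outside a closed subspace is separated by a functional. -/
theorem exists_functional (G : Submodule 𝕜 E) (hG : IsClosed (G : Set E)) (w : E) (hw : w ∉ G) :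
    ∃ h : StrongDual 𝕜 E, (∀ v ∈ G, h v = 0) ∧ h w = 1 := by
  haveI : IsClosed (G : Set E) := hG
  have h0 : G.mkQ w ≠ 0 := by
    rw [Submodule.mkQ_apply, Ne, Submodule.Quotient.mk_eq_zero]
    exact hw
  obtain ⟨φ, -, hφ⟩ := exists_dual_vector 𝕜 (G.mkQ w) (norm_ne_zero_iff.2 h0)
  have hne : ((‖G.mkQ w‖ : ℝ) : 𝕜) ≠ 0 := by
    rw [Ne, RCLike.ofReal_eq_zero]
    exact norm_ne_zero_iff.2 h0
  refine ⟨(((‖G.mkQ w‖ : ℝ) : 𝕜))⁻¹ • φ.comp G.mkQL, fun v hv => ?_, ?_⟩
  · have h1 : G.mkQ v = 0 := by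
      rw [Submodule.mkQ_apply]
      exact (Submodule.Quotient.mk_eq_zero G).2 hv
    change _ * φ (G.mkQ v) = 0
    rw [h1, map_zero, mul_zero]
  · change _ * φ (G.mkQ w) = 1
    rw [hφ, inv_mul_cancel₀ hne]

/-- Bounded functionals which tend to zero on `G` are eventually weak-star close to the
annihilator of `G`. -/
theorem exists_near (G : Submodule 𝕜 E) (M : ℝ) (F : ℕ → StrongDual 𝕜 E) (hF : ∀ n, ‖F n‖ ≤ M)
    (hFG : ∀ v ∈ G, Tendsto (fun n => F n v) atTop (𝓝 0)) (s : Finset E) (ε : ℝ) (hε : 0 < ε) :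
    ∃ n₀, ∀ n, n₀ ≤ n → ∃ K : StrongDual 𝕜 E, ‖K‖ ≤ M ∧ (∀ v ∈ G, K v = 0) ∧
      ∀ y ∈ s, ‖F n y - K y‖ < ε := by
  by_contra hcon
  push Not at hcon
  set Bad : Set ℕ := {n : ℕ | ∀ K : StrongDual 𝕜 E, ‖K‖ ≤ M → (∀ v ∈ G, K v = 0) →
      ∃ y ∈ s, ε ≤ ‖F n y - K y‖} with hBad
  have hfreq : ∃ᶠ n in atTop, n ∈ Bad := by
    rw [frequently_atTop]
    intro a
    obtain ⟨n, hn, h⟩ := hcon a
    exact ⟨n, hn, fun K h1 h2 => h K h1 h2⟩
  have hne : (atTop ⊓ 𝓟 Bad).NeBot := frequently_mem_iff_neBot.mp hfreq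
  let U : Ultrafilter ℕ := Ultrafilter.of (atTop ⊓ 𝓟 Bad)
  have hU := Ultrafilter.of_le (atTop ⊓ 𝓟 Bad)
  have hU1 : (U : Filter ℕ) ≤ atTop := hU.trans inf_le_left
  have hU2 : ∀ᶠ n in (U : Filter ℕ), n ∈ Bad := le_principal_iff.mp (hU.trans inf_le_right)
  have hcpt := WeakDual.isCompact_closedBall (𝕜 := 𝕜) (E := E) (0 : StrongDual 𝕜 E) M
  let Fw : ℕ → WeakDual 𝕜 E := fun n => StrongDual.toWeakDual (F n)
  obtain ⟨H, hHK, hHlim⟩ := hcpt.ultrafilter_le_nhds (U.map Fw) (by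
    rw [le_principal_iff]
    change ∀ᶠ n in (U : Filter ℕ), Fw n ∈ _
    refine Eventually.of_forall fun n => ?_
    change F n ∈ Metric.closedBall (0 : StrongDual 𝕜 E) M
    rw [mem_closedBall_zero_iff]
    exact hF n)
  have hHn : ‖WeakDual.toStrongDual H‖ ≤ M := by
    have h1 : WeakDual.toStrongDual H ∈ Metric.closedBall (0 : StrongDual 𝕜 E) M := hHK
    rwa [mem_closedBall_zero_iff] at h1
  have hlim : ∀ y : E, Tendsto (fun n => F n y) (U : Filter ℕ) (𝓝 (H y)) := by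
    intro y
    have h1 : Tendsto Fw (U : Filter ℕ) (𝓝 H) := hHlim
    have h2 : Continuous (fun φ : WeakDual 𝕜 E => φ y) := WeakDual.eval_continuous y
    exact (h2.tendsto H).comp h1
  have hHG : ∀ v ∈ G, WeakDual.toStrongDual H v = 0 := by
    intro v hv
    exact tendsto_nhds_unique (hlim v) ((hFG v hv).mono_left hU1)
  have hev : ∀ᶠ n in (U : Filter ℕ), ∀ y ∈ s, ‖F n y - H y‖ < ε := by
    rw [Filter.eventually_all_finset]
    intro y _
    have h1 := (Metric.tendsto_nhds.mp (hlim y)) ε hε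
    filter_upwards [h1] with n hn
    rwa [dist_eq_norm] at hn
  obtain ⟨n, hn1, hn2⟩ := (hU2.and hev).exists
  obtain ⟨y, hy, hy2⟩ := hn1 (WeakDual.toStrongDual H) hHn hHG
  exact absurd (hn2 y hy) (not_lt.mpr hy2)

/-- **Sobczyk's theorem in Veech's form.** In a separable space a bounded sequence of functionals
which tends to zero pointwise on a subspace `G` can be corrected by functionals vanishing on `G`
so that it tends to zero pointwise everywhere. -/
theorem null_correction [TopologicalSpace.SeparableSpace E] (G : Submodule 𝕜 E) (M : ℝ)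
    (F : ℕ → StrongDual 𝕜 E) (hF : ∀ n, ‖F n‖ ≤ M)
    (hFG : ∀ v ∈ G, Tendsto (fun n => F n v) atTop (𝓝 0)) :
    ∃ T : ℕ → StrongDual 𝕜 E, (∀ n, ∀ v ∈ G, T n v = F n v) ∧ (∀ n, ‖T n‖ ≤ 2 * M) ∧
      ∀ v, Tendsto (fun n => T n v) atTop (𝓝 0) := by
  classical
  have hM0 : 0 ≤ M := (norm_nonneg _).trans (hF 0)
  let d : ℕ → E := TopologicalSpace.denseSeq E
  have hd : DenseRange d := TopologicalSpace.denseRange_denseSeq E
  have hnear : ∀ k : ℕ, ∃ n₀, ∀ n, n₀ ≤ n → ∃ K : StrongDual 𝕜 E, ‖K‖ ≤ M ∧ (∀ v ∈ G, K v = 0) ∧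
      ∀ y ∈ (Finset.range (k + 1)).image d, ‖F n y - K y‖ < 1 / ((k : ℝ) + 1) := fun k =>
    exists_near G M F hF hFG _ _ (by positivity)
  choose n₀ hn₀ using hnear
  have hK : ∀ n : ℕ, ∃ K : StrongDual 𝕜 E, ‖K‖ ≤ M ∧ (∀ v ∈ G, K v = 0) ∧
      ∀ k ≤ n, n₀ k ≤ n → ∀ j ≤ k, ‖F n (d j) - K (d j)‖ < 1 / ((k : ℝ) + 1) := by
    intro n
    by_cases hne : ((Finset.range (n + 1)).filter (fun k => n₀ k ≤ n)).Nonempty
    · set k₁ := ((Finset.range (n + 1)).filter (fun k => n₀ k ≤ n)).max' hne with hk₁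
      have hmem := Finset.max'_mem _ hne
      rw [← hk₁, Finset.mem_filter] at hmem
      obtain ⟨K, h1, h2, h3⟩ := hn₀ k₁ n hmem.2
      refine ⟨K, h1, h2, fun k hk hk2 j hj => ?_⟩
      have hkm : k ∈ (Finset.range (n + 1)).filter (fun k => n₀ k ≤ n) :=
        Finset.mem_filter.mpr ⟨Finset.mem_range.mpr (by omega), hk2⟩
      have hle : k ≤ k₁ := Finset.le_max' _ k hkm
      have h4 := h3 (d j) (Finset.mem_image.mpr ⟨j, Finset.mem_range.mpr (by omega), rfl⟩)
      refine h4.trans_le ?_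
      apply one_div_le_one_div_of_le (by positivity)
      have : (k : ℝ) ≤ k₁ := by exact_mod_cast hle
      linarith
    · refine ⟨0, by rw [norm_zero]; exact hM0, fun x _ => rfl, fun k hk hk2 => ?_⟩
      exfalso
      apply hne
      exact ⟨k, Finset.mem_filter.mpr ⟨Finset.mem_range.mpr (by omega), hk2⟩⟩
  choose K hKn hKG hKd using hK
  let T : ℕ → StrongDual 𝕜 E := fun n => F n - K n
  have hTn : ∀ n, ‖T n‖ ≤ 2 * M := by
    intro n
    calc ‖T n‖ ≤ ‖F n‖ + ‖K n‖ := norm_sub_le _ _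
      _ ≤ _ := by linarith [hF n, hKn n]
  have hTn' : ∀ n y, ‖T n y‖ ≤ 2 * M * ‖y‖ := fun n y =>
    ((T n).le_opNorm y).trans (mul_le_mul_of_nonneg_right (hTn n) (norm_nonneg y))
  have hTd : ∀ j, Tendsto (fun n => T n (d j)) atTop (𝓝 0) := by
    intro j
    rw [Metric.tendsto_atTop]
    intro ε hε
    obtain ⟨k', hk'⟩ := exists_nat_one_div_lt hε
    set k := max k' j with hk
    refine ⟨max k (n₀ k), fun n hn => ?_⟩
    rw [dist_zero_right]
    have h1 := hKd n k ((le_max_left _ _).trans hn) ((le_max_right _ _).trans hn) j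
      (le_max_right _ _)
    have h2 : (1 : ℝ) / ((k : ℝ) + 1) ≤ 1 / ((k' : ℝ) + 1) := by
      apply one_div_le_one_div_of_le (by positivity)
      have : (k' : ℝ) ≤ k := by exact_mod_cast le_max_left _ _
      linarith
    exact h1.trans_le (h2.trans hk'.le)
  refine ⟨T, fun n v hv => ?_, hTn, fun y => ?_⟩
  · change F n v - K n v = F n v
    rw [hKG n v hv, sub_zero]
  · rw [Metric.tendsto_atTop]
    intro ε hε
    obtain ⟨j, hj⟩ := hd.exists_dist_lt y (by positivity : 0 < ε / (4 * (M + 1)))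
    obtain ⟨n₁, hn₁⟩ := (Metric.tendsto_atTop.mp (hTd j)) (ε / 2) (by positivity)
    refine ⟨n₁, fun n hn => ?_⟩
    have h1 := hn₁ n hn
    rw [dist_zero_right] at h1 ⊢
    have h2 := hTn' n (y - d j)
    rw [map_sub] at h2
    have h3 : 2 * M * ‖y - d j‖ < ε / 2 := by
      rw [dist_eq_norm, lt_div_iff₀ (by positivity)] at hj
      have := norm_nonneg (y - d j)
      nlinarith
    calc ‖T n y‖ ≤ ‖T n y - T n (d j)‖ + ‖T n (d j)‖ := by
          have := norm_add_le (T n y - T n (d j)) (T n (d j))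
          rwa [sub_add_cancel] at this
      _ < ε := by linarith

end Pool.Agent.R268.Sobczyk
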