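import Mathlib

/-!
# `ℓ^∞` has no equivalent locally uniformly convex norm
-/

set_option autoImplicit false

open Filter Topology
open scoped ENNReal

namespace Pool.Agent.R268.NoLUR

universe u

/-- `q` is an equivalent norm on `E`. -/
def IsEquivalentNorm {𝕜 : Type} [RCLike 𝕜] {E : Type u} [NormedAddCommGroup E] [NormedSpace 𝕜 E]
    (q : Seminorm 𝕜 E) : Prop :=
  ∃ a b : ℝ, 0 < a ∧ 0 < b ∧ ∀ x, a * ‖x‖ ≤ q x ∧ q x ≤ b * ‖x‖

/-- `q` is locally uniformly convex: if `q x = 1`, `q (y n) = 1` for all `n` and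
`q (y n + x)` tends to `2`, then `q (y n - x)` tends to `0`. -/
def IsLUR {𝕜 : Type} [RCLike 𝕜] {E : Type u} [NormedAddCommGroup E] [NormedSpace 𝕜 E]
    (q : Seminorm 𝕜 E) : Prop :=
  ∀ (x : E) (y : ℕ → E), q x = 1 → (∀ n, q (y n) = 1) →
    Tendsto (fun n => q (y n + x)) atTop (𝓝 2) → Tendsto (fun n => q (y n - x)) atTop (𝓝 0)

section general

variable {𝕜 : Type} [RCLike 𝕜] {E : Type u} [NormedAddCommGroup E] [NormedSpace 𝕜 E]

theorem smul_real (q : Seminorm 𝕜 E) (c : ℝ) (hc : 0 ≤ c) (x : E) :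
    q ((c : 𝕜) • x) = c * q x := by
  rw [map_smul_eq_mul, RCLike.norm_ofReal, abs_of_nonneg hc]

/-- consequence of local uniform convexity for vectors which are not normalized -/
theorem lur_consequence {q : Seminorm 𝕜 E} (hq : IsLUR q) (x : E) (z : ℕ → E)
    (hx : 0 < q x) (hz : ∀ n, 0 < q (x + z n))
    (h1 : Tendsto (fun n => q (x + z n)) atTop (𝓝 (q x)))
    (h2 : Tendsto (fun n => q (x + (x + z n))) atTop (𝓝 (2 * q x))) :
    Tendsto (fun n => q (z n)) atTop (𝓝 0) := by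
  set P := q x with hP
  let y : ℕ → E := fun n => (((q (x + z n))⁻¹ : ℝ) : 𝕜) • (x + z n)
  let u : E := ((P⁻¹ : ℝ) : 𝕜) • x
  have hu : q u = 1 := by
    rw [smul_real q _ (inv_nonneg.2 hx.le), ← hP, inv_mul_cancel₀ hx.ne']
  have hy : ∀ n, q (y n) = 1 := fun n => by
    rw [smul_real q _ (inv_nonneg.2 (hz n).le), inv_mul_cancel₀ (hz n).ne']
  have hinv : Tendsto (fun n => (q (x + z n))⁻¹) atTop (𝓝 P⁻¹) := h1.inv₀ hx.ne'
  -- difference between the two normalizations
  let w : ℕ → E := fun n => (((P⁻¹ : ℝ) : 𝕜)) • (x + z n)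
  have hyw : ∀ n, q (y n - w n) = |(q (x + z n))⁻¹ - P⁻¹| * q (x + z n) := by
    intro n
    have : y n - w n = ((((q (x + z n))⁻¹ - P⁻¹ : ℝ)) : 𝕜) • (x + z n) := by
      rw [RCLike.ofReal_sub, sub_smul]
    rw [this, map_smul_eq_mul, RCLike.norm_ofReal]
  have hyw0 : Tendsto (fun n => q (y n - w n)) atTop (𝓝 0) := by
    simp_rw [hyw]
    have h3 : Tendsto (fun n => |(q (x + z n))⁻¹ - P⁻¹|) atTop (𝓝 0) := by
      have := (hinv.sub_const P⁻¹).abs
      simpa using this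
    simpa using h3.mul h1
  have hwu : ∀ n, q (w n + u) = P⁻¹ * q (x + (x + z n)) := by
    intro n
    have : w n + u = ((P⁻¹ : ℝ) : 𝕜) • (x + (x + z n)) := by
      simp only [w, u]
      rw [← smul_add]
      congr 1
      abel
    rw [this, smul_real q _ (inv_nonneg.2 hx.le)]
  have hwu2 : Tendsto (fun n => q (w n + u)) atTop (𝓝 2) := by
    simp_rw [hwu]
    have := h2.const_mul P⁻¹
    have h4 : P⁻¹ * (2 * P) = 2 := by field_simp
    rwa [h4] at this
  have hyu : Tendsto (fun n => q (y n + u)) atTop (𝓝 2) := by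
    have hlow : Tendsto (fun n => q (w n + u) - q (y n - w n)) atTop (𝓝 2) := by
      simpa using hwu2.sub hyw0
    have hupp : Tendsto (fun n => q (w n + u) + q (y n - w n)) atTop (𝓝 2) := by
      simpa using hwu2.add hyw0
    refine tendsto_of_tendsto_of_tendsto_of_le_of_le hlow hupp (fun n => ?_) (fun n => ?_)
    · have e1 : w n + u = (y n + u) - (y n - w n) := by abel
      have h5 : q (w n + u) ≤ q (y n + u) + q (y n - w n) := by
        conv_lhs => rw [e1]
        exact map_sub_le_add q _ _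
      simp only
      linarith
    · have e1 : y n + u = (w n + u) + (y n - w n) := by abel
      simp only
      conv_lhs => rw [e1]
      exact map_add_le_add q _ _
  have hconc := hq u y hu hy hyu
  -- conclude
  have hzz : ∀ n, q (z n) ≤ P * (q (y n - u) + q (y n - w n)) := by
    intro n
    have e1 : z n = ((P : ℝ) : 𝕜) • (w n - u) := by
      have e2 : w n - u = ((P⁻¹ : ℝ) : 𝕜) • (z n) := by
        simp only [w, u]
        rw [← smul_sub, add_sub_cancel_left]
      rw [e2, smul_smul, ← RCLike.ofReal_mul, mul_inv_cancel₀ hx.ne', RCLike.ofReal_one, one_smul]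
    have e3 : w n - u = (y n - u) - (y n - w n) := by abel
    conv_lhs => rw [e1, smul_real q _ hx.le, e3]
    exact mul_le_mul_of_nonneg_left (map_sub_le_add q _ _) hx.le
  have hfin : Tendsto (fun n => P * (q (y n - u) + q (y n - w n))) atTop (𝓝 0) := by
    simpa using (hconc.add hyw0).const_mul P
  exact squeeze_zero (fun n => apply_nonneg q _) hzz hfin

end general

section linfty

variable {𝕜 : Type} [RCLike 𝕜]

/-- the space of bounded sequences -/
abbrev B (𝕜 : Type) [RCLike 𝕜] := lp (fun _ : ℕ => 𝕜) ∞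

/-- build a bounded sequence -/
noncomputable def mk (f : ℕ → 𝕜) (C : ℝ) (hf : ∀ k, ‖f k‖ ≤ C) : B 𝕜 :=
  ⟨f, memℓp_infty ⟨C, by rintro _ ⟨k, rfl⟩; exact hf k⟩⟩

theorem mk_apply (f : ℕ → 𝕜) (C : ℝ) (hf : ∀ k, ‖f k‖ ≤ C) (k : ℕ) : mk f C hf k = f k := rfl

theorem norm_le {x : B 𝕜} {C : ℝ} (hC : 0 ≤ C) (h : ∀ k, ‖x k‖ ≤ C) : ‖x‖ ≤ C :=
  lp.norm_le_of_forall_le hC h

theorem apply_le (x : B 𝕜) (k : ℕ) : ‖x k‖ ≤ ‖x‖ := lp.norm_apply_le_norm (by simp) x k

/-- splitting an infinite set of natural numbers into `K` infinite sets -/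
theorem exists_split (A : Set ℕ) (hA : A.Infinite) (K : ℕ) (hK : 0 < K) :
    ∃ S : Fin K → Set ℕ, (∀ j, S j ⊆ A ∧ (S j).Infinite) ∧
      ∀ i j, i ≠ j → Disjoint (S i) (S j) := by
  classical
  let φ : ℕ → ℕ := Nat.nth (· ∈ A)
  have hφ : StrictMono φ := Nat.nth_strictMono hA
  have hφA : ∀ m, φ m ∈ A := fun m => Nat.nth_mem_of_infinite hA m
  refine ⟨fun j => φ '' {m | m % K = j}, fun j => ⟨?_, ?_⟩, fun i j hij => ?_⟩
  · rintro _ ⟨m, -, rfl⟩
    exact hφA m
  · refine Set.Infinite.image hφ.injective.injOn ?_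
    have : Set.range (fun n : ℕ => n * K + (j : ℕ)) ⊆ {m | m % K = j} := by
      rintro _ ⟨n, rfl⟩
      change (n * K + (j : ℕ)) % K = j
      rw [Nat.add_comm, Nat.add_mul_mod_self_right, Nat.mod_eq_of_lt j.2]
    refine Set.Infinite.mono this (Set.infinite_range_of_injective ?_)
    intro a b hab
    have : a * K = b * K := by
      have h := hab
      simp only at h
      omega
    exact Nat.eq_of_mul_eq_mul_right hK this
  · rw [Set.disjoint_left]
    rintro _ ⟨m, hm, rfl⟩ ⟨m', hm', h⟩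
    have h1 := hφ.injective h
    subst h1
    apply hij
    apply Fin.ext
    rw [← (hm : m' % K = i), ← (hm' : m' % K = j)]

/-- perturbations supported on a small infinite set hardly decrease the norm -/
theorem exists_small {p : Seminorm 𝕜 (B 𝕜)} {b : ℝ} (hb : 0 < b) (hp : ∀ x, p x ≤ b * ‖x‖)
    (v : B 𝕜) (A : Set ℕ) (hA : A.Infinite) (ε : ℝ) (hε : 0 < ε) :
    ∃ A' : Set ℕ, A' ⊆ A ∧ A'.Infinite ∧ ∀ w : B 𝕜, (∀ k, k ∉ A' → w k = 0) → ‖w‖ ≤ 2 →
      p v - ε ≤ p (v + w) := by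
  classical
  obtain ⟨K, hK⟩ := exists_nat_gt (2 * b / ε)
  have hK0 : 0 < K := by
    have : 0 < 2 * b / ε := by positivity
    have h2 : (0 : ℝ) < K := this.trans hK
    exact_mod_cast h2
  have hKR : (0 : ℝ) < K := by exact_mod_cast hK0
  obtain ⟨S, hS1, hS2⟩ := exists_split A hA K hK0
  by_contra hcon
  push Not at hcon
  choose w hw1 hw2 hw3 using fun j => hcon (S j) (hS1 j).1 (hS1 j).2
  -- the average
  let W : B 𝕜 := (((K : ℝ)⁻¹ : ℝ) : 𝕜) • ∑ j, w j
  have hWn : ‖W‖ ≤ 2 / K := by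
    have h1 : ‖∑ j, w j‖ ≤ 2 := by
      refine norm_le (by norm_num) (fun k => ?_)
      rw [lp.coeFn_sum, Finset.sum_apply]
      by_cases hk : ∃ j, k ∈ S j
      · obtain ⟨j, hj⟩ := hk
        rw [Finset.sum_eq_single j]
        · exact (apply_le _ _).trans (hw2 j)
        · intro i _ hij
          refine hw1 i k (fun hki => ?_)
          exact Set.disjoint_left.1 (hS2 i j hij) hki hj
        · intro h; exact absurd (Finset.mem_univ _) h
      · push Not at hk
        rw [Finset.sum_eq_zero (fun i _ => hw1 i k (hk i)), norm_zero]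
        norm_num
    rw [norm_smul, RCLike.norm_ofReal, abs_of_pos (inv_pos.2 hKR), div_eq_inv_mul]
    exact mul_le_mul_of_nonneg_left h1 (inv_pos.2 hKR).le
  have havg : v + W = (((K : ℝ)⁻¹ : ℝ) : 𝕜) • ∑ j : Fin K, (v + w j) := by
    rw [Finset.sum_add_distrib, Finset.sum_const, Finset.card_univ, Fintype.card_fin, smul_add,
      ← Nat.cast_smul_eq_nsmul 𝕜, smul_smul]
    congr 1
    have : (((K : ℝ)⁻¹ : ℝ) : 𝕜) * (K : 𝕜) = 1 := by
      have h3 : (K : 𝕜) = (((K : ℝ)) : 𝕜) := by norm_cast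
      rw [h3, ← RCLike.ofReal_mul, inv_mul_cancel₀ hKR.ne', RCLike.ofReal_one]
    rw [this, one_smul]
  have h5 : p (v + W) ≤ p v - ε := by
    rw [havg, smul_real p _ (inv_pos.2 hKR).le, inv_mul_le_iff₀ hKR]
    calc p (∑ j : Fin K, (v + w j)) ≤ ∑ j : Fin K, p (v + w j) :=
          Finset.le_sum_of_subadditive p (map_zero p).le (map_add_le_add p) _ _
      _ ≤ ∑ _j : Fin K, (p v - ε) := Finset.sum_le_sum (fun j _ => (hw3 j).le)
      _ = K * (p v - ε) := by
          rw [Finset.sum_const, Finset.card_univ, Fintype.card_fin, nsmul_eq_mul]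
  have h6 : p v - p W ≤ p (v + W) := by
    have := map_sub_le_add p (v + W) W
    rw [add_sub_cancel_right] at this
    linarith
  have h7 : p W ≤ b * (2 / K) := (hp W).trans (mul_le_mul_of_nonneg_left hWn hb.le)
  have h8 : b * (2 / K) < ε := by
    rw [div_lt_iff₀ hε] at hK
    rw [mul_div_assoc', div_lt_iff₀ hKR]
    linarith
  linarith

/-- one step of the construction -/
theorem exists_step {p : Seminorm 𝕜 (B 𝕜)} {b : ℝ} (hb : 0 < b) (hp : ∀ x, p x ≤ b * ‖x‖)
    (A : Set ℕ) (hA : A.Infinite) (x : B 𝕜) (hx : ‖x‖ ≤ 1) (hxA : ∀ k ∈ A, x k = 0)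
    (ε : ℝ) (hε : 0 < ε) :
    ∃ (A' : Set ℕ) (x' : B 𝕜) (r : ℕ) (s : ℝ), A' ⊆ A ∧ A'.Infinite ∧ ‖x'‖ ≤ 1 ∧
      (∀ k ∈ A', x' k = 0) ∧ (∀ k, k ∉ A → x' k = x k) ∧ r ∈ A ∧ r ∉ A' ∧ x' r = 0 ∧
      (∀ t : B 𝕜, (∀ k, k ∉ A → t k = 0) → ‖t‖ ≤ 1 → p (x + t) ≤ s) ∧
      (∀ z : B 𝕜, ‖z‖ ≤ 1 → (∀ k, k ∉ A' → z k = x' k) → s - 2 * ε ≤ p z) := by
  classical
  let V : Set ℝ := {c | ∃ t : B 𝕜, (∀ k, k ∉ A → t k = 0) ∧ ‖t‖ ≤ 1 ∧ c = p (x + t)}
  have hVne : V.Nonempty := ⟨p (x + 0), 0, fun _ _ => rfl, by simp, rfl⟩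
  have hVb : BddAbove V := by
    refine ⟨b * 2, ?_⟩
    rintro _ ⟨t, -, ht, rfl⟩
    refine (hp _).trans (mul_le_mul_of_nonneg_left ?_ hb.le)
    exact (norm_add_le _ _).trans (by linarith)
  obtain ⟨_, ⟨y, hy1, hy2, rfl⟩, hy3⟩ := exists_lt_of_lt_csSup hVne
    (show sSup V - ε < sSup V by linarith)
  obtain ⟨C, hC1, hC2, hC3⟩ := exists_small hb hp (x + y) A hA ε hε
  obtain ⟨r, hr⟩ := hC2.nonempty
  have hbd : ∀ k, ‖(if k ∈ C then (0 : 𝕜) else (x + y) k)‖ ≤ 1 := by
    intro k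
    split_ifs with h
    · simp
    · rw [lp.coeFn_add, Pi.add_apply]
      by_cases hk : k ∈ A
      · rw [hxA k hk, zero_add]; exact (apply_le _ _).trans hy2
      · rw [hy1 k hk, add_zero]; exact (apply_le _ _).trans hx
  refine ⟨C \ {r}, mk _ 1 hbd, r, sSup V, (Set.sdiff_subset.trans hC1),
    hC2.sdiff (Set.finite_singleton r), norm_le zero_le_one hbd, ?_, ?_, hC1 hr, ?_, ?_, ?_, ?_⟩
  · rintro k ⟨hk, -⟩
    rw [mk_apply, if_pos hk]
  · intro k hk
    rw [mk_apply, if_neg (fun h => hk (hC1 h)), lp.coeFn_add, Pi.add_apply, hy1 k hk, add_zero]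
  · rintro ⟨-, h⟩
    exact h rfl
  · rw [mk_apply, if_pos hr]
  · intro t ht1 ht2
    exact le_csSup hVb ⟨t, ht1, ht2, rfl⟩
  · intro z hz1 hz2
    have h1 := hC3 (z - (x + y)) (fun k hk => ?_) ?_
    · rw [add_sub_cancel] at h1
      linarith
    · rw [lp.coeFn_sub, Pi.sub_apply, hz2 k (fun h => hk h.1), mk_apply, if_neg hk, sub_self]
    · have h2 : ‖x + y‖ ≤ 1 := by
        refine norm_le zero_le_one (fun k => ?_)
        rw [lp.coeFn_add, Pi.add_apply]
        by_cases hk : k ∈ A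
        · rw [hxA k hk, zero_add]; exact (apply_le _ _).trans hy2
        · rw [hy1 k hk, add_zero]; exact (apply_le _ _).trans hx
      calc ‖z - (x + y)‖ ≤ ‖z‖ + ‖x + y‖ := norm_sub_le _ _
        _ ≤ 2 := by linarith

/-- the states of the construction -/
structure State (𝕜 : Type) [RCLike 𝕜] where
  A : Set ℕ
  x : B 𝕜
  hA : A.Infinite
  hx : ‖x‖ ≤ 1
  hxA : ∀ k ∈ A, x k = 0

theorem no_lur (p : Seminorm 𝕜 (B 𝕜)) (hp : IsEquivalentNorm p) : ¬ IsLUR p := by
  classical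
  intro hlur
  obtain ⟨a, b, ha, hb, hab⟩ := hp
  have hpb : ∀ x, p x ≤ b * ‖x‖ := fun x => (hab x).2
  let ε : ℕ → ℝ := fun n => a / (16 * (n + 1))
  have hε : ∀ n, 0 < ε n := fun n => by positivity
  have hεle : ∀ n, ε n ≤ a / 16 := by
    intro n
    apply div_le_div_of_nonneg_left ha.le (by norm_num)
    have : (0 : ℝ) ≤ n := Nat.cast_nonneg n
    linarith
  have hε0 : Tendsto ε atTop (𝓝 0) := by
    have h := (tendsto_one_div_add_atTop_nhds_zero_nat (𝕜 := ℝ)).const_mul (a / 16)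
    rw [mul_zero] at h
    refine h.congr (fun n => ?_)
    simp only [ε]
    field_simp
  choose nA nx nr ns h1 h2 h3 h4 h5 h6 h7 h8 h9 h10 using
    fun (S : State 𝕜) (n : ℕ) => exists_step hb hpb S.A S.hA S.x S.hx S.hxA (ε n) (hε n)
  let S0 : State 𝕜 := ⟨Set.univ, 0, Set.infinite_univ, by simp, fun _ _ => rfl⟩
  let S : ℕ → State 𝕜 := fun n => Nat.rec S0
    (fun n S => ⟨nA S n, nx S n, h2 S n, h3 S n, h4 S n⟩) n
  have hSA : ∀ n, (S (n + 1)).A = nA (S n) n := fun n => rfl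
  have hSx : ∀ n, (S (n + 1)).x = nx (S n) n := fun n => rfl
  -- monotonicity
  have hmono : ∀ n m, n ≤ m → (S m).A ⊆ (S n).A := by
    intro n m hnm
    induction m, hnm using Nat.le_induction with
    | base => exact subset_rfl
    | succ m _ ih => rw [hSA]; exact (h1 (S m) m).trans ih
  have hconst : ∀ n m, n ≤ m → ∀ k, k ∉ (S n).A → (S m).x k = (S n).x k := by
    intro n m hnm
    induction m, hnm using Nat.le_induction with
    | base => intro k _; rfl
    | succ m hm ih =>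
      intro k hk
      rw [hSx, h5 (S m) m k (fun h => hk (hmono n m hm h)), ih k hk]
  -- the limit
  let g : ℕ → 𝕜 := fun k => if h : ∃ n, k ∉ (S n).A then (S (Nat.find h)).x k else 0
  have hg : ∀ n k, k ∉ (S n).A → g k = (S n).x k := by
    intro n k hk
    have hex : ∃ n, k ∉ (S n).A := ⟨n, hk⟩
    simp only [g]
    rw [dif_pos hex]
    exact (hconst _ _ (Nat.find_min' hex hk) k (Nat.find_spec hex)).symm
  have hg1 : ∀ k, ‖g k‖ ≤ 1 := by
    intro k
    by_cases hex : ∃ n, k ∉ (S n).A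
    · obtain ⟨n, hn⟩ := hex
      rw [hg n k hn]
      exact (apply_le _ _).trans (S n).hx
    · simp only [g]
      rw [dif_neg hex, norm_zero]
      exact zero_le_one
  let x : B 𝕜 := mk g 1 hg1
  have hx1 : ‖x‖ ≤ 1 := norm_le zero_le_one hg1
  let r : ℕ → ℕ := fun n => nr (S n) n
  let s : ℕ → ℝ := fun n => ns (S n) n
  have hrA : ∀ n, r n ∈ (S n).A := fun n => h6 (S n) n
  have hrA' : ∀ n, r n ∉ (S (n + 1)).A := fun n => h7 (S n) n
  have hxr : ∀ n, x (r n) = 0 := by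
    intro n
    rw [mk_apply, hg (n + 1) _ (hrA' n), hSx]
    exact h8 (S n) n
  have hlow : ∀ n, s n - 2 * ε n ≤ p x := by
    intro n
    refine h10 (S n) n x hx1 (fun k hk => ?_)
    rw [mk_apply, hg (n + 1) k hk, hSx]
  have hupp : ∀ n (t : B 𝕜), (∀ k, k ≠ r n → t k = 0) → ‖t‖ ≤ 1 → p (x + t) ≤ p x + 2 * ε n := by
    intro n t ht1 ht2
    have h11 := h9 (S n) n (x - (S n).x + t) (fun k hk => ?_) ?_
    · have e1 : (S n).x + (x - (S n).x + t) = x + t := by abel
      rw [e1] at h11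
      have := hlow n
      simp only [s] at this
      linarith
    · rw [lp.coeFn_add, Pi.add_apply, lp.coeFn_sub, Pi.sub_apply, mk_apply, hg n k hk, sub_self,
        zero_add]
      exact ht1 k (fun h => hk (by rw [h]; exact hrA n))
    · refine norm_le zero_le_one (fun k => ?_)
      rw [lp.coeFn_add, Pi.add_apply, lp.coeFn_sub, Pi.sub_apply]
      by_cases hk : k = r n
      · rw [hk, hxr, (S n).hxA _ (hrA n), sub_zero, zero_add]
        exact (apply_le _ _).trans ht2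
      · rw [ht1 k hk, add_zero]
        by_cases hkA : k ∈ (S n).A
        · rw [(S n).hxA k hkA, sub_zero]; exact hg1 k
        · rw [mk_apply, hg n k hkA, sub_self, norm_zero]; exact zero_le_one
  -- positivity of the norm of `x`
  have hpx : 3 * a / 4 ≤ p x := by
    have h12 := hlow 0
    have h13 : a ≤ s 0 := by
      have h14 := h9 (S 0) 0 (mk (fun _ => 1) 1 (fun _ => by simp)) (fun k hk => by
        exact absurd (Set.mem_univ k) hk) (norm_le zero_le_one (fun _ => by simp [mk_apply]))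
      have h15 := (hab ((S 0).x + mk (fun _ => 1) 1 (fun _ => by simp))).1
      have h16 : (1 : ℝ) ≤ ‖(S 0).x + mk (fun _ => (1 : 𝕜)) 1 (fun _ => by simp)‖ := by
        refine le_trans ?_ (apply_le _ 0)
        rw [lp.coeFn_add, Pi.add_apply, mk_apply]
        have : (S 0).x 0 = 0 := rfl
        rw [this, zero_add, norm_one]
      have h17 : a * 1 ≤ a * ‖(S 0).x + mk (fun _ => (1 : 𝕜)) 1 (fun _ => by simp)‖ :=
        mul_le_mul_of_nonneg_left h16 ha.le
      simp only [s]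
      linarith
    have := hεle 0
    linarith
  -- the perturbations
  let z : ℕ → B 𝕜 := fun n => mk (fun k => if k = r n then 1 else 0) 1 (fun k => by
    split_ifs <;> simp)
  have hz1 : ∀ n k, k ≠ r n → z n k = 0 := fun n k hk => by rw [mk_apply, if_neg hk]
  have hzn : ∀ n, ‖z n‖ ≤ 1 := fun n => norm_le zero_le_one (fun k => by
    rw [mk_apply]; split_ifs <;> simp)
  have hzn' : ∀ n, 1 ≤ ‖z n‖ := fun n => by
    refine le_trans ?_ (apply_le _ (r n))
    rw [mk_apply, if_pos rfl, norm_one]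
  -- two-sided estimates
  have hest : ∀ n (c : ℝ), 0 ≤ c → c ≤ 1 →
      |p (x + (c : 𝕜) • z n) - p x| ≤ 2 * ε n := by
    intro n c hc0 hc1
    have hcn : ‖(c : 𝕜)‖ ≤ 1 := by rw [RCLike.norm_ofReal, abs_of_nonneg hc0]; exact hc1
    have ha1 : ‖(c : 𝕜) • z n‖ ≤ 1 := by
      rw [norm_smul]
      exact mul_le_one₀ hcn (norm_nonneg _) (hzn n)
    have hsupp : ∀ k, k ≠ r n → ((c : 𝕜) • z n : B 𝕜) k = 0 := by
      intro k hk
      rw [lp.coeFn_smul, Pi.smul_apply, hz1 n k hk, smul_zero]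
    have hu1 := hupp n ((c : 𝕜) • z n) hsupp ha1
    have hu2 := hupp n (-((c : 𝕜) • z n)) (fun k hk => by
      rw [lp.coeFn_neg, Pi.neg_apply, hsupp k hk, neg_zero]) (by rw [norm_neg]; exact ha1)
    have h2x : 2 * p x ≤ p (x + (c : 𝕜) • z n) + p (x + -((c : 𝕜) • z n)) := by
      have e1 : ((2 : ℝ) : 𝕜) • x = (x + (c : 𝕜) • z n) + (x + -((c : 𝕜) • z n)) := by
        have : ((2 : ℝ) : 𝕜) = 2 := by norm_cast
        rw [this, two_smul]
        abel
      rw [← smul_real p 2 (by norm_num) x, e1]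
      exact map_add_le_add p _ _
    rw [abs_le]
    constructor <;> linarith
  have hpos : 0 < p x := lt_of_lt_of_le (by positivity) hpx
  have hone : ((1 : ℝ) : 𝕜) = 1 := RCLike.ofReal_one
  have hε2 : Tendsto (fun n => 2 * ε n) atTop (𝓝 0) := by simpa using hε0.const_mul 2
  have hT : ∀ c : ℝ, 0 ≤ c → c ≤ 1 →
      Tendsto (fun n => p (x + (c : 𝕜) • z n)) atTop (𝓝 (p x)) := by
    intro c hc0 hc1
    rw [tendsto_iff_norm_sub_tendsto_zero]
    refine squeeze_zero (fun n => norm_nonneg _) (fun n => ?_) hε2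
    rw [Real.norm_eq_abs]
    exact hest n c hc0 hc1
  have key := lur_consequence hlur x z hpos (fun n => ?_) ?_ ?_
  · have h20 : ∀ n, a ≤ p (z n) := fun n => by
      have h21 := (hab (z n)).1
      have h22 := hzn' n
      nlinarith
    have h23 := ge_of_tendsto' key h20
    linarith
  · have h24 := hest n 1 zero_le_one le_rfl
    rw [hone, one_smul, abs_le] at h24
    have h25 := hεle n
    linarith [h24.1]
  · have := hT 1 zero_le_one le_rfl
    rw [hone] at this
    simpa using this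
  · have := (hT (1 / 2) (by norm_num) (by norm_num)).const_mul 2
    refine this.congr (fun n => ?_)
    rw [← smul_real p 2 (by norm_num)]
    congr 1
    have e2 : ((2 : ℝ) : 𝕜) = 2 := by norm_cast
    have e3 : (((1 / 2 : ℝ)) : 𝕜) = 2⁻¹ := by
      rw [one_div, RCLike.ofReal_inv, e2]
    rw [smul_add, smul_smul, e3, e2, mul_inv_cancel₀ (two_ne_zero), one_smul, two_smul, add_assoc]

end linfty

end Pool.Agent.R268.NoLUR
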